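import Pool.Agent.Helper17.CR.Stmts2

set_option autoImplicit false

namespace Pool.Agent.Helper72.CR

open Polynomial Pool.Agent.Helper17.CR

theorem upp_one (F : Polynomial ℤ) (d i x : ℕ) (H : ℤ) (hd : F.natDegree ≤ d)
    (hH : ∀ i, |F.coeff i| ≤ H) (hx : 1 ≤ x) :
    |(hasseDeriv i F).eval (x : ℤ)| ≤ (d + 1 : ℤ) * 2 ^ d * H * (x : ℤ) ^ d := by
  have hx' : (1 : ℤ) ≤ x := by exact_mod_cast hx
  have hH0 : 0 ≤ H := (abs_nonneg _).trans (hH 0)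
  have h1 : hasseDeriv i F = ∑ n ∈ Finset.range (d + 1),
      monomial (n - i) (((n.choose i : ℕ) : ℤ) * F.coeff n) := by
    rw [hasseDeriv_apply, sum_over_range' F _ (d + 1) (by omega)]
    intro n
    simp
  rw [h1, eval_finsetSum]
  refine (Finset.abs_sum_le_sum_abs _ _).trans ?_
  have h2 : ∀ n ∈ Finset.range (d + 1),
      |eval (x : ℤ) (monomial (n - i) (((n.choose i : ℕ) : ℤ) * F.coeff n))| ≤
        2 ^ d * H * (x : ℤ) ^ d := by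
    intro n hn
    have hn' : n ≤ d := Nat.lt_succ_iff.1 (Finset.mem_range.1 hn)
    rw [eval_monomial, abs_mul, abs_mul, abs_of_nonneg (by positivity : (0 : ℤ) ≤ (x : ℤ) ^ (n - i)),
      abs_of_nonneg (by positivity : (0 : ℤ) ≤ ((n.choose i : ℕ) : ℤ))]
    have h3 : ((n.choose i : ℕ) : ℤ) ≤ 2 ^ d := by
      have h4 : n.choose i ≤ 2 ^ n := Nat.choose_le_two_pow n i
      have h5 : (2 : ℕ) ^ n ≤ 2 ^ d := Nat.pow_le_pow_right (by norm_num) hn'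
      exact_mod_cast h4.trans h5
    have h6 : (x : ℤ) ^ (n - i) ≤ (x : ℤ) ^ d := pow_le_pow_right₀ hx' (by omega)
    have h7 := hH n
    gcongr
  refine (Finset.sum_le_sum h2).trans (le_of_eq ?_)
  rw [Finset.sum_const, Finset.card_range, nsmul_eq_mul]
  push_cast
  ring

theorem st_UPP : ST_UPP := by
  intro C hC
  refine ⟨33792 * C, by omega, ?_⟩
  intro D r i x y P hr hP hx hy
  have hx' : (1 : ℤ) ≤ x := by exact_mod_cast hx
  have hcoef : ∀ b j, |(P b).coeff j| ≤ (C : ℤ) ^ r := by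
    intro b j
    have := hP.coef b j
    push_cast at this
    exact this
  have h0 := upp_one (P 0) (10 * r) i x _ hP.deg0 (hcoef 0) hx
  have h1 := upp_one (P 1) (7 * r) i x _ hP.deg1 (hcoef 1) hx
  have h2 := upp_one (P 2) (2 * r) i x _ hP.deg2 (hcoef 2) hx
  have hy' : (y : ℤ) ≤ (x : ℤ) ^ (5 * r) := by exact_mod_cast hy
  have hspc : (hasseDeriv i (spc P y)).eval (x : ℤ) = (hasseDeriv i (P 0)).eval (x : ℤ) +
      (y : ℤ) * (hasseDeriv i (P 1)).eval (x : ℤ) +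
      (y : ℤ) ^ 2 * (hasseDeriv i (P 2)).eval (x : ℤ) := by
    unfold spc
    rw [map_add, map_add, ← smul_eq_C_mul, ← smul_eq_C_mul, map_smul, map_smul, eval_add, eval_add,
      eval_smul, eval_smul, smul_eq_mul, smul_eq_mul]
  rw [hspc]
  have hA : ((10 * r : ℕ) + 1 : ℤ) ≤ 11 ^ r := by
    have h := one_add_mul_le_pow (show (-2 : ℤ) ≤ 10 by norm_num) r
    push_cast
    calc (10 * (r : ℤ) + 1) = 1 + r * 10 := by ring
      _ ≤ (1 + 10) ^ r := h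
      _ = 11 ^ r := by norm_num
  have hA0 : (0 : ℤ) ≤ ((10 * r : ℕ) + 1 : ℤ) := by positivity
  have h3r : (3 : ℤ) ≤ 3 ^ r := by
    calc (3 : ℤ) = 3 ^ 1 := by norm_num
      _ ≤ 3 ^ r := pow_le_pow_right₀ (by norm_num) hr
  set B : ℤ := 11 ^ r * 2 ^ (10 * r) * (C : ℤ) ^ r with hB
  have hB0 : 0 ≤ B := by positivity
  have k0 : |(hasseDeriv i (P 0)).eval (x : ℤ)| ≤ B * (x : ℤ) ^ (12 * r) := by
    refine h0.trans ?_
    have h6 : (x : ℤ) ^ (10 * r) ≤ (x : ℤ) ^ (12 * r) := pow_le_pow_right₀ hx' (by omega)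
    calc ((10 * r : ℕ) + 1 : ℤ) * 2 ^ (10 * r) * (C : ℤ) ^ r * (x : ℤ) ^ (10 * r)
        ≤ 11 ^ r * 2 ^ (10 * r) * (C : ℤ) ^ r * (x : ℤ) ^ (12 * r) := by gcongr
      _ = _ := rfl
  have k1 : |(y : ℤ) * (hasseDeriv i (P 1)).eval (x : ℤ)| ≤ B * (x : ℤ) ^ (12 * r) := by
    rw [abs_mul, abs_of_nonneg (by positivity : (0 : ℤ) ≤ (y : ℤ))]
    have h5 : ((7 * r : ℕ) + 1 : ℤ) ≤ 11 ^ r := by
      refine le_trans ?_ hA
      push_cast
      have : (0 : ℤ) ≤ r := by positivity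
      linarith
    have h5' : (0 : ℤ) ≤ ((7 * r : ℕ) + 1 : ℤ) := by positivity
    have h7 : (2 : ℤ) ^ (7 * r) ≤ 2 ^ (10 * r) := pow_le_pow_right₀ (by norm_num) (by omega)
    have h8 : (x : ℤ) ^ (5 * r) * (x : ℤ) ^ (7 * r) = (x : ℤ) ^ (12 * r) := by
      rw [← pow_add]
      congr 1
      omega
    calc (y : ℤ) * |(hasseDeriv i (P 1)).eval (x : ℤ)|
        ≤ (x : ℤ) ^ (5 * r) * (((7 * r : ℕ) + 1 : ℤ) * 2 ^ (7 * r) * (C : ℤ) ^ r *
          (x : ℤ) ^ (7 * r)) := by gcongr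
      _ ≤ (x : ℤ) ^ (5 * r) * (11 ^ r * 2 ^ (10 * r) * (C : ℤ) ^ r * (x : ℤ) ^ (7 * r)) := by
          gcongr
      _ = B * ((x : ℤ) ^ (5 * r) * (x : ℤ) ^ (7 * r)) := by rw [hB]; ring
      _ = _ := by rw [h8]
  have k2 : |(y : ℤ) ^ 2 * (hasseDeriv i (P 2)).eval (x : ℤ)| ≤ B * (x : ℤ) ^ (12 * r) := by
    rw [abs_mul, abs_of_nonneg (by positivity : (0 : ℤ) ≤ (y : ℤ) ^ 2)]
    have h5 : ((2 * r : ℕ) + 1 : ℤ) ≤ 11 ^ r := by
      refine le_trans ?_ hA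
      push_cast
      have : (0 : ℤ) ≤ r := by positivity
      linarith
    have h5' : (0 : ℤ) ≤ ((2 * r : ℕ) + 1 : ℤ) := by positivity
    have h7 : (2 : ℤ) ^ (2 * r) ≤ 2 ^ (10 * r) := pow_le_pow_right₀ (by norm_num) (by omega)
    have h8 : ((x : ℤ) ^ (5 * r)) ^ 2 * (x : ℤ) ^ (2 * r) = (x : ℤ) ^ (12 * r) := by
      rw [← pow_mul, ← pow_add]
      congr 1
      omega
    calc (y : ℤ) ^ 2 * |(hasseDeriv i (P 2)).eval (x : ℤ)|
        ≤ ((x : ℤ) ^ (5 * r)) ^ 2 * (((2 * r : ℕ) + 1 : ℤ) * 2 ^ (2 * r) * (C : ℤ) ^ r *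
          (x : ℤ) ^ (2 * r)) := by gcongr
      _ ≤ ((x : ℤ) ^ (5 * r)) ^ 2 * (11 ^ r * 2 ^ (10 * r) * (C : ℤ) ^ r * (x : ℤ) ^ (2 * r)) := by
          gcongr
      _ = B * (((x : ℤ) ^ (5 * r)) ^ 2 * (x : ℤ) ^ (2 * r)) := by rw [hB]; ring
      _ = _ := by rw [h8]
  have h9 : |(hasseDeriv i (P 0)).eval (x : ℤ) + (y : ℤ) * (hasseDeriv i (P 1)).eval (x : ℤ) +
      (y : ℤ) ^ 2 * (hasseDeriv i (P 2)).eval (x : ℤ)| ≤ 3 * (B * (x : ℤ) ^ (12 * r)) := by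
    refine (abs_add_three _ _ _).trans ?_
    linarith
  refine h9.trans ?_
  have h10 : (((33792 * C : ℕ) : ℤ)) ^ r = 3 ^ r * B := by
    rw [hB, pow_mul]
    push_cast
    rw [← mul_pow, ← mul_pow, ← mul_pow]
    congr 1
    ring
  rw [h10, mul_assoc]
  have h11 : 0 ≤ B * (x : ℤ) ^ (12 * r) := by positivity
  nlinarith

end Pool.Agent.Helper72.CR
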